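import Pool.Agent.H27.ZF.TB
import Pool.Agent.H31.CT.GKT

/-!
Board tzf (MP_52e316_nt), targets: almost all twisted L-functions of GL(m) have no zeros with real part at
least `1/2 + δ`, and are small and not too small there.
-/

set_option autoImplicit false

namespace Pool.Agent.H47.TZF

open MeasureTheory Pool.Agent.H27.L1.H34.GM Pool.Agent.H27.L1.H34.GZ Pool.Agent.H27.L1.H34.GU
  Pool.Agent.H27.L1.H34.GA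
open Pool.Agent.H27.ZF (Fam Dp Sq)
open Pool.Agent.H31.CT (Q3 Tw)

/-- the integers of the window with centre `t0` -/
noncomputable def Wi (t0 H : ℝ) : Finset ℤ := Finset.Icc ⌈t0 - H⌉ ⌊t0 + H⌋

/-- small or large values of `L` near the height `k`, to the right of `1/2 + d` -/
def Out (L : ℂ → ℂ) (d lo hi : ℝ) (k : ℤ) : Prop :=
  ∃ s : ℂ, 1 / 2 + d ≤ s.re ∧ |s.im - k| ≤ 1 ∧ (‖L s‖ < lo ∨ hi < ‖L s‖)

open Classical in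
/-- the pairs of a form and a window with large Dirichlet polynomials, coefficients `c n * lam n` -/
def T_BDT : Prop := ∀ (m : ℕ) (B ε : ℝ), 1 ≤ m → 1 ≤ B → 0 < ε → ∃ C : ℝ, 0 < C ∧
  ∀ (N : ℕ) [NeZero N] (T : ℕ → Finset (ZM m)) (D : Set (V m)), SysZ m N T D →
  ∀ H : ℝ, 1 ≤ H → ∀ (S : Type) [Fintype S] [DecidableEq S] (F : S → Mat m → VN m N → ℂ)
    (lam : S → ℕ → ℂ) (W : S → ℝ), Fam T D H F lam W →
  ∀ (c : ℕ → ℂ) (lamG : S → ℕ → ℂ), (∀ n, ‖c n‖ ≤ 1) → (∀ i n, 1 ≤ n → lamG i n = c n * lam i n) →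
  ∀ t0 z0 z A : ℝ, 1 ≤ A →
    ∑ i, W i * (((Wi t0 H).filter (fun k : ℤ => ∃ s : ℂ, 1 / 2 ≤ s.re ∧ s.re ≤ B ∧
      |s.im - k| ≤ B ∧ ¬ Dp m (lamG i) (N * H ^ m) z0 z A s)).card : ℝ) ≤
      C * ((N : ℝ) * H) ^ ε * ((N : ℝ) ^ m * H ^ (m ^ 2)) / A ^ 2

open Classical in
/-- the pairs of a form and a window with a large value of the twisted L-function (second moment) -/
def T_BLT : Prop := ∀ (m : ℕ) (d B ε : ℝ), 1 ≤ m → 0 < d → d ≤ 1 → 1 ≤ B → 0 < ε → ∃ C : ℝ, 0 < C ∧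
  ∀ (N : ℕ) [NeZero N] (T : ℕ → Finset (ZM m)) (D : Set (V m)), SysZ m N T D →
  ∀ B0 H U : ℝ, 1 ≤ B0 → 1 ≤ H → H ≤ U → ∀ (S : Type) [Fintype S] [DecidableEq S]
    (F : S → Mat m → VN m N → ℂ) (lam : S → ℕ → ℂ) (W : S → ℝ), Fam T D H F lam W →
  ∀ (c : ℕ → ℂ) (M : S → ℕ) [∀ i, NeZero (M i)] (G : ∀ i, Mat m → VN m (M i) → ℂ)
    (lamG : S → ℕ → ℂ), (∀ n, ‖c n‖ ≤ 1) → Tw m T D B0 U c lam M G lamG →
  ∀ L : S → ℂ → ℂ, (∀ i, IsL m 1 (lamG i) (L i)) → ∀ t0 : ℝ, H + |t0| ≤ U → ∀ A : ℝ, 1 ≤ A →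
    ∑ i, W i * (((Wi t0 H).filter (fun k : ℤ => ∃ s : ℂ, 1 / 2 + d ≤ s.re ∧ s.re ≤ B ∧
      |s.im - k| ≤ B ∧ A < ‖L i s‖)).card : ℝ) ≤
      C * (((N : ℝ) * B0 * U) ^ ε * Q3 m N B0 H U) / A ^ 2

open Classical in
/-- one level, one window: few pairs of a form and an integer with small or large values -/
def T_Z1T : Prop := ∀ (m : ℕ) (d e : ℝ), 1 ≤ m → 0 < d → 0 < e → ∃ a : ℝ, 0 < a ∧
  ∀ ε : ℝ, 0 < ε → ∃ C : ℝ, 0 < C ∧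
  ∀ (N : ℕ) [NeZero N] (T : ℕ → Finset (ZM m)) (D : Set (V m)), SysZ m N T D →
  ∀ B0 H U : ℝ, 1 ≤ B0 → 1 ≤ H → H ≤ U → ∀ (S : Type) [Fintype S] [DecidableEq S]
    (F : S → Mat m → VN m N → ℂ) (lam : S → ℕ → ℂ) (W : S → ℝ), Fam T D H F lam W →
  ∀ (c : ℕ → ℂ) (M : S → ℕ) [∀ i, NeZero (M i)] (G : ∀ i, Mat m → VN m (M i) → ℂ)
    (lamG : S → ℕ → ℂ), (∀ n, ‖c n‖ ≤ 1) → Tw m T D B0 U c lam M G lamG →
  ∀ L : S → ℂ → ℂ, (∀ i, IsL m 1 (lamG i) (L i)) → ∀ t0 : ℝ, H + |t0| ≤ U →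
    ∑ i, W i * (((Wi t0 H).filter (fun k : ℤ => Out (L i) d (((N : ℝ) * H ^ m) ^ (-e))
      (((N : ℝ) * H ^ m) ^ e) k)).card : ℝ) ≤
      C * (((N : ℝ) * B0 * U) ^ ε * Q3 m N B0 H U) * ((N : ℝ) * H ^ m) ^ (-a)

end Pool.Agent.H47.TZF
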