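import Pool.Agent.H47.ZF.BDA

/-!
Board zf (MP_52e316_nt), row BD: the pairs of a form and a window with large Dirichlet polynomials.
-/

set_option autoImplicit false

namespace Pool.Agent.H47.ZF

open MeasureTheory Pool.Agent.H27.ZF
open Pool.Agent.H27.L1.H34.GM Pool.Agent.H27.L1.H34.GZ Pool.Agent.H27.L1.H34.GU
  Pool.Agent.H27.L1.H34.GA

/-- the coefficients of the derivative -/
noncomputable def bl (b : ℕ → ℂ) (r : ℕ) (n : ℕ) : ℂ :=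
  if n ∈ Bk r then b n * ((Real.log ((2 : ℝ) ^ r / n) : ℝ) : ℂ) else 0

theorem bl_le (b : ℕ → ℂ) (r : ℕ) (hb : ∀ n, ‖b n‖ ≤ 1) (n : ℕ) : ‖bl b r n‖ ≤ 1 := by
  unfold bl
  split_ifs with h
  · rw [norm_mul, Complex.norm_real, Real.norm_eq_abs]
    have h1 := Finset.mem_Ioc.mp h
    have h2 : 2 ^ r < n * 2 := (Nat.div_lt_iff_lt_mul (by norm_num)).mp h1.1
    have hn : (0 : ℝ) < n := by exact_mod_cast (by omega : 0 < n)
    have h3 : (2 : ℝ) ^ r / n ≤ 2 := by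
      rw [div_le_iff₀ hn]
      have : (2 : ℝ) ^ r < n * 2 := by exact_mod_cast h2
      linarith
    have h4 : 1 ≤ (2 : ℝ) ^ r / n := by
      rw [le_div_iff₀ hn, one_mul]
      exact_mod_cast h1.2
    have h5 : 0 ≤ Real.log ((2 : ℝ) ^ r / n) := Real.log_nonneg h4
    have h6 : Real.log ((2 : ℝ) ^ r / n) ≤ 1 := by
      have h7 : Real.log ((2 : ℝ) ^ r / n) ≤ Real.log 2 := Real.log_le_log (by linarith) h3
      linarith [Real.log_two_lt_d9]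
    rw [abs_of_nonneg h5]
    calc ‖b n‖ * Real.log ((2 : ℝ) ^ r / n) ≤ 1 * 1 :=
          mul_le_mul (hb n) h6 h5 (by norm_num)
      _ = 1 := one_mul 1
  · simp

theorem dbd (lam b : ℕ → ℂ) (r : ℕ) (s : ℂ) : HasDerivAt (Gd lam b r) (Gd lam (bl b r) r s) s := by
  have e1 : Gd lam b r = fun s => ∑ n ∈ Bk r, (2 : ℂ) ^ ((r : ℂ) * (s - 1 / 2)) *
      (b n * lam n * (n : ℂ) ^ (-s)) := by
    funext s
    rw [Gd, DB, Finset.mul_sum]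
  have e2 : Gd lam (bl b r) r s = ∑ n ∈ Bk r, ((2 : ℂ) ^ ((r : ℂ) * (s - 1 / 2)) * Complex.log 2 *
      ((r : ℂ) * 1) * (b n * lam n * (n : ℂ) ^ (-s)) + (2 : ℂ) ^ ((r : ℂ) * (s - 1 / 2)) *
        (b n * lam n * ((n : ℂ) ^ (-s) * Complex.log n * (-1)))) := by
    rw [Gd, DB, Finset.mul_sum]
    refine Finset.sum_congr rfl (fun n hn => ?_)
    have h1 := Finset.mem_Ioc.mp hn
    have hn0 : (n : ℝ) ≠ 0 := by
      have : n ≠ 0 := by omega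
      exact_mod_cast this
    have h2 : ((Real.log ((2 : ℝ) ^ r / n) : ℝ) : ℂ) = (r : ℂ) * Complex.log 2 - Complex.log n := by
      rw [Real.log_div (by positivity) hn0, Real.log_pow, Complex.ofReal_sub, Complex.ofReal_mul,
        Complex.natCast_log]
      have h3 : ((Real.log 2 : ℝ) : ℂ) = Complex.log 2 := by
        rw [Complex.ofReal_log (by norm_num)]
        norm_num
      rw [h3]
      push_cast
      ring
    rw [bl, if_pos hn, h2]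
    ring
  rw [e1, e2]
  refine HasDerivAt.fun_sum (fun n hn => ?_)
  have h1 := Finset.mem_Ioc.mp hn
  have hn0 : (n : ℂ) ≠ 0 := by
    have : n ≠ 0 := by omega
    exact_mod_cast this
  refine HasDerivAt.mul ?_ ?_
  · exact (((hasDerivAt_id s).sub_const (1 / 2 : ℂ)).const_mul (r : ℂ)).const_cpow
      (Or.inl (by norm_num))
  · exact ((hasDerivAt_neg s).const_cpow (Or.inl hn0)).const_mul (b n * lam n)

theorem Gd_diff (lam b : ℕ → ℂ) (r : ℕ) : Differentiable ℂ (Gd lam b r) :=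
  fun s => (dbd lam b r s).differentiableAt

theorem Gd_deriv (lam b : ℕ → ℂ) (r : ℕ) : deriv (Gd lam b r) = Gd lam (bl b r) r :=
  funext fun s => (dbd lam b r s).deriv

/-- the integrand -/
noncomputable def Hf (lam b : ℕ → ℂ) (r : ℕ) (σ u : ℝ) : ENNReal :=
  ENNReal.ofReal (‖Gd lam b r (σ + u * Complex.I)‖ ^ 2) +
    ENNReal.ofReal (‖Gd lam (bl b r) r (σ + u * Complex.I)‖ ^ 2) +
      ENNReal.ofReal (‖Gd lam (bl (bl b r) r) r (σ + u * Complex.I)‖ ^ 2)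

theorem Gd_meas (lam b : ℕ → ℂ) (r : ℕ) (σ : ℝ) :
    Measurable (fun u : ℝ => ENNReal.ofReal (‖Gd lam b r (σ + u * Complex.I)‖ ^ 2)) := by
  have h1 : Continuous (fun u : ℝ => ‖Gd lam b r (σ + u * Complex.I)‖ ^ 2) := by
    have h2 := (Gd_diff lam b r).continuous
    exact (h2.comp (by fun_prop)).norm.pow 2
  exact h1.measurable.ennreal_ofReal

theorem Hf_meas (lam b : ℕ → ℂ) (r : ℕ) (σ : ℝ) : Measurable (Hf lam b r σ) :=
  ((Gd_meas lam b r σ).add (Gd_meas lam _ r σ)).add (Gd_meas lam _ r σ)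

open Classical in
/-- the windows with a large value of one Dirichlet polynomial -/
theorem one (m : ℕ) (hm : 1 ≤ m) (B ε : ℝ) (hB : 1 ≤ B) (hε : 0 < ε) (hSOB : T_SOB)
    (hLSF : T_LSF) : ∃ C : ℝ, 0 < C ∧
  ∀ (N : ℕ) [NeZero N] (T : ℕ → Finset (ZM m)) (D : Set (V m)), SysZ m N T D →
  ∀ P : ℝ, 1 ≤ P → ∀ (S : Type) [Fintype S] [DecidableEq S] (F : S → Mat m → VN m N → ℂ)
    (lam : S → ℕ → ℂ) (W : S → ℝ), Fam T D P F lam W →
  ∀ r : ℕ, (2 : ℝ) ^ r ≤ N * P ^ m → ∀ b : ℕ → ℂ, (∀ n, ‖b n‖ ≤ 1) → ∀ A : ℝ, 1 ≤ A →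
    ∑ i, W i * (((Finset.Icc (-⌊P⌋) ⌊P⌋).filter (fun k : ℤ => ∃ s : ℂ, 1 / 2 ≤ s.re ∧ s.re ≤ B ∧
      |s.im - k| ≤ B ∧ A < ‖Gd (lam i) b r s‖)).card : ℝ) ≤
      C * ((N : ℝ) * P) ^ ε * ((N : ℝ) ^ m * P ^ (m ^ 2)) / A ^ 2 := by
  obtain ⟨C1, hC1, h1⟩ := hSOB (1 / 2) B (by linarith)
  obtain ⟨C2, hC2, h2⟩ := hLSF m B ε hm hB hε
  have hcB : (0 : ℝ) ≤ (⌈B⌉ : ℝ) := by
    have : (0 : ℤ) ≤ ⌈B⌉ := Int.ceil_nonneg (by linarith)
    exact_mod_cast this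
  have hC0 : 0 < C1 * ((2 * B + 1) * ((2 * (⌈B⌉ : ℝ) + 1) * 3)) * (B - 1 / 2) * C2 :=
    mul_pos (mul_pos (mul_pos hC1 (by positivity)) (by linarith)) hC2
  refine ⟨C1 * ((2 * B + 1) * ((2 * (⌈B⌉ : ℝ) + 1) * 3)) * (B - 1 / 2) * C2, hC0, ?_⟩
  intro N _ T D hS P hP S _ _ F lam W hF r hr b hb A hA
  have hW := hF.nn
  have hN : (0 : ℝ) ≤ N := Nat.cast_nonneg N
  set M : ℝ := C2 * ((N : ℝ) * P) ^ ε * ((N : ℝ) ^ m * P ^ (m ^ 2)) with hM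
  have hM0 : 0 ≤ M := by positivity
  -- mean squares of one polynomial
  have hG : ∀ b' : ℕ → ℂ, (∀ n, ‖b' n‖ ≤ 1) → ∀ σ τ : ℝ, 0 ≤ σ → σ ≤ B →
      ∑ i, ENNReal.ofReal (W i) * ∫⁻ t in Set.Icc (-P) P,
        ENNReal.ofReal (‖Gd (lam i) b' r (σ + ((t + τ : ℝ) : ℂ) * Complex.I)‖ ^ 2) ≤
          ENNReal.ofReal M := by
    intro b' hb' σ τ hσ hσB
    have h3 := h2 N T D hS P hP S F lam W hF r hr b' hb' σ τ hσ hσB
    have e1 : ∀ i, ENNReal.ofReal (W i) * ∫⁻ t in Set.Icc (-P) P,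
        ENNReal.ofReal (‖Gd (lam i) b' r (σ + ((t + τ : ℝ) : ℂ) * Complex.I)‖ ^ 2) =
        ENNReal.ofReal ((2 : ℝ) ^ ((r : ℝ) * (2 * σ - 1))) * (ENNReal.ofReal (W i) *
          ∫⁻ t in Set.Icc (-P) P,
            ENNReal.ofReal (‖DB (lam i) b' r (σ + (t + τ) * Complex.I)‖ ^ 2)) := by
      intro i
      simp_rw [Gd_sq]
      rw [lintegral_const_mul' _ _ ENNReal.ofReal_ne_top]
      simp only [Complex.ofReal_add]
      ring
    rw [Finset.sum_congr rfl (fun i _ => e1 i), ← Finset.mul_sum]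
    refine (mul_le_mul' le_rfl h3).trans ?_
    rw [← ENNReal.ofReal_mul (by positivity)]
    apply ENNReal.ofReal_le_ofReal
    have e2 : (2 : ℝ) ^ ((r : ℝ) * (2 * σ - 1)) * (2 : ℝ) ^ ((r : ℝ) * (1 - 2 * σ)) = 1 := by
      rw [← Real.rpow_add (by norm_num)]
      have : (r : ℝ) * (2 * σ - 1) + (r : ℝ) * (1 - 2 * σ) = 0 := by ring
      rw [this, Real.rpow_zero]
    calc (2 : ℝ) ^ ((r : ℝ) * (2 * σ - 1)) * (C2 * ((N : ℝ) * P) ^ ε *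
          ((N : ℝ) ^ m * P ^ (m ^ 2)) * (2 : ℝ) ^ ((r : ℝ) * (1 - 2 * σ)))
        = ((2 : ℝ) ^ ((r : ℝ) * (2 * σ - 1)) * (2 : ℝ) ^ ((r : ℝ) * (1 - 2 * σ))) * M := by
          rw [hM]; ring
      _ ≤ M := by rw [e2, one_mul]
  -- the same for the sum of the three
  have hH : ∀ σ τ : ℝ, 0 ≤ σ → σ ≤ B →
      ∑ i, ENNReal.ofReal (W i) * ∫⁻ t in Set.Icc (-P) P, Hf (lam i) b r σ (t + τ) ≤
        ENNReal.ofReal (3 * M) := by
    intro σ τ hσ hσB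
    have e1 : ∀ i, ENNReal.ofReal (W i) * ∫⁻ t in Set.Icc (-P) P, Hf (lam i) b r σ (t + τ) =
        ENNReal.ofReal (W i) * (∫⁻ t in Set.Icc (-P) P,
          ENNReal.ofReal (‖Gd (lam i) b r (σ + ((t + τ : ℝ) : ℂ) * Complex.I)‖ ^ 2)) +
        ENNReal.ofReal (W i) * (∫⁻ t in Set.Icc (-P) P,
          ENNReal.ofReal (‖Gd (lam i) (bl b r) r (σ + ((t + τ : ℝ) : ℂ) * Complex.I)‖ ^ 2)) +
        ENNReal.ofReal (W i) * (∫⁻ t in Set.Icc (-P) P,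
          ENNReal.ofReal (‖Gd (lam i) (bl (bl b r) r) r (σ + ((t + τ : ℝ) : ℂ) * Complex.I)‖ ^ 2)) := by
      intro i
      have hm1 : ∀ b' : ℕ → ℂ, Measurable (fun t : ℝ =>
          ENNReal.ofReal (‖Gd (lam i) b' r (σ + ((t + τ : ℝ) : ℂ) * Complex.I)‖ ^ 2)) := fun b' =>
        (Gd_meas (lam i) b' r σ).comp (measurable_id.add_const τ)
      unfold Hf
      rw [lintegral_add_right _ (hm1 (bl (bl b r) r)), lintegral_add_right _ (hm1 (bl b r)),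
        mul_add, mul_add]
    rw [Finset.sum_congr rfl (fun i _ => e1 i), Finset.sum_add_distrib, Finset.sum_add_distrib]
    have e3 : ENNReal.ofReal (3 * M) = ENNReal.ofReal M + ENNReal.ofReal M + ENNReal.ofReal M := by
      rw [← ENNReal.ofReal_add hM0 hM0, ← ENNReal.ofReal_add (by positivity) hM0]
      congr 1
      ring
    rw [e3]
    exact add_le_add (add_le_add (hG b hb σ τ hσ hσB) (hG _ (bl_le b r hb) σ τ hσ hσB))
      (hG _ (bl_le _ r (bl_le b r hb)) σ τ hσ hσB)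
  -- one form
  have hone : ∀ i, ENNReal.ofReal (A ^ 2) * (((Finset.Icc (-⌊P⌋) ⌊P⌋).filter (fun k : ℤ =>
      ∃ s : ℂ, 1 / 2 ≤ s.re ∧ s.re ≤ B ∧ |s.im - k| ≤ B ∧ A < ‖Gd (lam i) b r s‖)).card : ENNReal) ≤
      ∑ k ∈ Finset.Icc (-⌊P⌋) ⌊P⌋, ENNReal.ofReal C1 * ∫⁻ σ in Set.Icc (1 / 2) B,
        ∫⁻ t in Set.Icc (-B) B, Hf (lam i) b r σ (t + (k : ℝ)) := by
    intro i
    rw [mul_comm, ← nsmul_eq_mul, ← Finset.sum_const]
    refine (Finset.sum_le_sum (fun k hk => ?_)).trans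
      (Finset.sum_le_sum_of_subset (Finset.filter_subset _ _))
    obtain ⟨s, hs1, hs2, hs3, hs4⟩ := (Finset.mem_filter.mp hk).2
    have h3 := h1 (Gd (lam i) b r) B (k : ℝ) (Gd_diff _ _ _) hB s hs1 hs2 hs3
    rw [Gd_deriv, Gd_deriv] at h3
    refine (ENNReal.ofReal_le_ofReal (pow_le_pow_left₀ (by linarith) hs4.le 2)).trans
      (h3.trans (le_of_eq ?_))
    unfold Hf
    simp only [Complex.ofReal_add]
  -- the sum over the family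
  have hall : ∑ i, ENNReal.ofReal (W i) * (ENNReal.ofReal (A ^ 2) *
      (((Finset.Icc (-⌊P⌋) ⌊P⌋).filter (fun k : ℤ =>
      ∃ s : ℂ, 1 / 2 ≤ s.re ∧ s.re ≤ B ∧ |s.im - k| ≤ B ∧ A < ‖Gd (lam i) b r s‖)).card : ENNReal)) ≤
      ENNReal.ofReal (C1 * ((2 * B + 1) * ((2 * (⌈B⌉ : ℝ) + 1) * 3)) * (B - 1 / 2) * M) := by
    calc ∑ i, ENNReal.ofReal (W i) * (ENNReal.ofReal (A ^ 2) *
      (((Finset.Icc (-⌊P⌋) ⌊P⌋).filter (fun k : ℤ =>
      ∃ s : ℂ, 1 / 2 ≤ s.re ∧ s.re ≤ B ∧ |s.im - k| ≤ B ∧ A < ‖Gd (lam i) b r s‖)).card : ENNReal))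
        ≤ ∑ i, ENNReal.ofReal (W i) * ∑ k ∈ Finset.Icc (-⌊P⌋) ⌊P⌋, ENNReal.ofReal C1 *
            ∫⁻ σ in Set.Icc (1 / 2) B, ∫⁻ t in Set.Icc (-B) B, Hf (lam i) b r σ (t + (k : ℝ)) :=
          Finset.sum_le_sum (fun i _ => mul_le_mul' le_rfl (hone i))
      _ = ENNReal.ofReal C1 * ∑ i, ∑ k ∈ Finset.Icc (-⌊P⌋) ⌊P⌋, ENNReal.ofReal (W i) *
            ∫⁻ σ in Set.Icc (1 / 2) B, ∫⁻ t in Set.Icc (-B) B, Hf (lam i) b r σ (t + (k : ℝ)) := by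
          simp_rw [Finset.mul_sum]
          exact Finset.sum_congr rfl (fun i _ => Finset.sum_congr rfl (fun k _ => by ring))
      _ ≤ ENNReal.ofReal C1 * ∑ i, ∑ k ∈ Finset.Icc (-⌊P⌋) ⌊P⌋,
            ∫⁻ σ in Set.Icc (1 / 2) B, ENNReal.ofReal (W i) *
              ∫⁻ t in Set.Icc (-B) B, Hf (lam i) b r σ (t + (k : ℝ)) :=
          mul_le_mul' le_rfl (Finset.sum_le_sum (fun i _ => Finset.sum_le_sum (fun k _ =>
            lintegral_const_mul_le _ _)))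
      _ ≤ ENNReal.ofReal C1 * ∑ i, ∫⁻ σ in Set.Icc (1 / 2) B, ∑ k ∈ Finset.Icc (-⌊P⌋) ⌊P⌋,
              ENNReal.ofReal (W i) *
              ∫⁻ t in Set.Icc (-B) B, Hf (lam i) b r σ (t + (k : ℝ)) :=
          mul_le_mul' le_rfl (Finset.sum_le_sum (fun i _ => sum_lint_le _ _ _))
      _ ≤ ENNReal.ofReal C1 * ∫⁻ σ in Set.Icc (1 / 2) B, ∑ i, ∑ k ∈ Finset.Icc (-⌊P⌋) ⌊P⌋,
              ENNReal.ofReal (W i) *
              ∫⁻ t in Set.Icc (-B) B, Hf (lam i) b r σ (t + (k : ℝ)) :=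
          mul_le_mul' le_rfl (sum_lint_le _ _ _)
      _ ≤ ENNReal.ofReal C1 * ∫⁻ σ in Set.Icc (1 / 2) B,
            ENNReal.ofReal ((2 * B + 1) * ((2 * (⌈B⌉ : ℝ) + 1) * (3 * M))) := by
          refine mul_le_mul' le_rfl (setLIntegral_mono' measurableSet_Icc (fun σ hσ => ?_))
          calc ∑ i, ∑ k ∈ Finset.Icc (-⌊P⌋) ⌊P⌋, ENNReal.ofReal (W i) *
              ∫⁻ t in Set.Icc (-B) B, Hf (lam i) b r σ (t + (k : ℝ))
              ≤ ∑ i, ENNReal.ofReal (W i) * (ENNReal.ofReal (2 * B + 1) *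
                  ∑ τ ∈ Finset.Icc (-⌈B⌉) ⌈B⌉,
                    ∫⁻ t in Set.Icc (-P) P, Hf (lam i) b r σ (t + (τ : ℝ))) := by
                refine Finset.sum_le_sum (fun i _ => ?_)
                rw [← Finset.mul_sum]
                exact mul_le_mul' le_rfl (cover B P hB hP _ (Hf_meas _ _ _ _))
            _ = ENNReal.ofReal (2 * B + 1) * ∑ τ ∈ Finset.Icc (-⌈B⌉) ⌈B⌉, ∑ i,
                  ENNReal.ofReal (W i) *
                    ∫⁻ t in Set.Icc (-P) P, Hf (lam i) b r σ (t + (τ : ℝ)) := by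
                rw [Finset.sum_comm]
                simp_rw [Finset.mul_sum]
                exact Finset.sum_congr rfl (fun i _ => Finset.sum_congr rfl (fun k _ => by ring))
            _ ≤ ENNReal.ofReal (2 * B + 1) * ∑ τ ∈ Finset.Icc (-⌈B⌉) ⌈B⌉,
                  ENNReal.ofReal (3 * M) :=
                mul_le_mul' le_rfl (Finset.sum_le_sum (fun τ _ =>
                  hH σ τ (by linarith [hσ.1]) hσ.2))
            _ = ENNReal.ofReal ((2 * B + 1) * ((2 * (⌈B⌉ : ℝ) + 1) * (3 * M))) := by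
                rw [Finset.sum_const, nsmul_eq_mul, Int.card_Icc, ← ENNReal.ofReal_natCast,
                  ← ENNReal.ofReal_mul (by positivity), ← ENNReal.ofReal_mul (by linarith)]
                congr 3
                have h5 : (0 : ℤ) ≤ ⌈B⌉ + 1 - -⌈B⌉ := by
                  have : (0 : ℤ) ≤ ⌈B⌉ := Int.ceil_nonneg (by linarith)
                  omega
                have h6 : (((⌈B⌉ + 1 - -⌈B⌉).toNat : ℕ) : ℝ) = ((⌈B⌉ + 1 - -⌈B⌉ : ℤ) : ℝ) := by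
                  exact_mod_cast Int.toNat_of_nonneg h5
                rw [h6]
                push_cast
                ring
      _ = _ := by
          rw [setLIntegral_const, Real.volume_Icc, ← ENNReal.ofReal_mul (by positivity),
            ← ENNReal.ofReal_mul (by linarith)]
          congr 1
          ring
  -- back to the reals
  have e5 : ∑ i, ENNReal.ofReal (W i) * (ENNReal.ofReal (A ^ 2) *
      (((Finset.Icc (-⌊P⌋) ⌊P⌋).filter (fun k : ℤ =>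
      ∃ s : ℂ, 1 / 2 ≤ s.re ∧ s.re ≤ B ∧ |s.im - k| ≤ B ∧ A < ‖Gd (lam i) b r s‖)).card : ENNReal)) =
      ENNReal.ofReal (A ^ 2 * ∑ i, W i * (((Finset.Icc (-⌊P⌋) ⌊P⌋).filter (fun k : ℤ =>
        ∃ s : ℂ, 1 / 2 ≤ s.re ∧ s.re ≤ B ∧ |s.im - k| ≤ B ∧ A < ‖Gd (lam i) b r s‖)).card : ℝ)) := by
    rw [Finset.mul_sum, ENNReal.ofReal_sum_of_nonneg (fun i _ => by
      have := hW i
      positivity)]
    refine Finset.sum_congr rfl (fun i _ => ?_)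
    rw [← ENNReal.ofReal_natCast, ← ENNReal.ofReal_mul (by positivity),
      ← ENNReal.ofReal_mul (hW i)]
    congr 1
    ring
  rw [e5, ENNReal.ofReal_le_ofReal_iff (by
    have : 0 ≤ B - 1 / 2 := by linarith
    positivity)] at hall
  rw [le_div_iff₀ (by positivity)]
  calc (∑ i, W i * (((Finset.Icc (-⌊P⌋) ⌊P⌋).filter (fun k : ℤ =>
        ∃ s : ℂ, 1 / 2 ≤ s.re ∧ s.re ≤ B ∧ |s.im - k| ≤ B ∧ A < ‖Gd (lam i) b r s‖)).card : ℝ)) * A ^ 2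
      ≤ C1 * ((2 * B + 1) * ((2 * (⌈B⌉ : ℝ) + 1) * 3)) * (B - 1 / 2) * M := by
        rw [mul_comm]
        exact hall
    _ = _ := by
        rw [hM]
        ring

theorem bb_le (U : Finset ℕ) (k l : ℕ) (n : ℕ) : ‖bb U k l n‖ ≤ 1 := by
  unfold bb
  split_ifs <;> simp

/-- few dyadic blocks -/
theorem logcnt (m : ℕ) (ε : ℝ) (hε : 0 < ε) : ∃ K : ℝ, 0 < K ∧ ∀ (N : ℕ) (P : ℝ), 1 ≤ N → 1 ≤ P →
    ((⌊Real.logb 2 (N * P ^ m)⌋₊ : ℝ) + 1) ≤ K * ((N : ℝ) * P) ^ ε := by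
  refine ⟨((m : ℝ) + 1) / Real.log 2 / ε + 1, by positivity, ?_⟩
  intro N P hN hP
  have hN1 : (1 : ℝ) ≤ N := by exact_mod_cast hN
  have hNP : 1 ≤ (N : ℝ) * P := by nlinarith
  have hlog2 : 0 < Real.log 2 := Real.log_pos (by norm_num)
  have h0 : 1 ≤ (N : ℝ) * P ^ m := by
    have : (1 : ℝ) ≤ P ^ m := one_le_pow₀ hP
    nlinarith
  have h1 : (⌊Real.logb 2 (N * P ^ m)⌋₊ : ℝ) ≤ Real.logb 2 (N * P ^ m) :=
    Nat.floor_le (Real.logb_nonneg (by norm_num) h0)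
  have h2 : (N : ℝ) * P ^ m ≤ ((N : ℝ) * P) ^ (m + 1) := by
    rw [mul_pow]
    have h3 : (N : ℝ) ≤ (N : ℝ) ^ (m + 1) := le_self_pow₀ hN1 (by omega)
    have h4 : P ^ m ≤ P ^ (m + 1) := pow_le_pow_right₀ hP (by omega)
    exact mul_le_mul h3 h4 (by positivity) (by positivity)
  have h5 : Real.logb 2 (N * P ^ m) ≤ ((m : ℝ) + 1) * Real.log ((N : ℝ) * P) / Real.log 2 := by
    rw [Real.logb]
    gcongr
    calc Real.log (N * P ^ m) ≤ Real.log (((N : ℝ) * P) ^ (m + 1)) :=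
          Real.log_le_log (by linarith) h2
      _ = ((m : ℝ) + 1) * Real.log ((N : ℝ) * P) := by
          rw [Real.log_pow]
          push_cast
          ring
  have h6 : Real.log ((N : ℝ) * P) ≤ ((N : ℝ) * P) ^ ε / ε :=
    Real.log_le_rpow_div (by linarith) hε
  have h7 : 1 ≤ ((N : ℝ) * P) ^ ε := Real.one_le_rpow hNP hε.le
  calc (⌊Real.logb 2 (N * P ^ m)⌋₊ : ℝ) + 1
      ≤ ((m : ℝ) + 1) * (((N : ℝ) * P) ^ ε / ε) / Real.log 2 + 1 := by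
        have h8 : ((m : ℝ) + 1) * Real.log ((N : ℝ) * P) / Real.log 2 ≤
            ((m : ℝ) + 1) * (((N : ℝ) * P) ^ ε / ε) / Real.log 2 := by gcongr
        linarith
    _ ≤ ((m : ℝ) + 1) * (((N : ℝ) * P) ^ ε / ε) / Real.log 2 + 1 * ((N : ℝ) * P) ^ ε := by linarith
    _ = _ := by ring

open Classical in
theorem pf_BD (hLSF : T_LSF) (hSOB : T_SOB) : T_BD := by
  intro m B ε hm hB hε
  obtain ⟨C, hC, h1⟩ := one m hm B (ε / 2) hB (by linarith) hSOB hLSF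
  obtain ⟨K, hK, h2⟩ := logcnt m (ε / 4) (by linarith)
  refine ⟨K * K * m * C, by
    have : (0 : ℝ) < m := by exact_mod_cast hm
    positivity, ?_⟩
  intro N _ T D hS P hP S _ _ F lam W hF z0 z A hA
  have hW := hF.nn
  have hN : 1 ≤ N := Nat.one_le_iff_ne_zero.mpr (NeZero.ne N)
  have hN1 : (1 : ℝ) ≤ N := by exact_mod_cast hN
  have hNP : 1 ≤ (N : ℝ) * P := by nlinarith
  have hQ : 1 ≤ (N : ℝ) * P ^ m := by
    have : (1 : ℝ) ≤ P ^ m := one_le_pow₀ hP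
    nlinarith
  set n : ℕ := ⌊Real.logb 2 (N * P ^ m)⌋₊ with hn
  have hpow : ∀ j : ℕ, (2 : ℝ) ^ j ≤ N * P ^ m ↔ j ≤ n := by
    intro j
    rw [hn, Nat.le_floor_iff (Real.logb_nonneg (by norm_num) hQ), Real.le_logb_iff_rpow_le
      (by norm_num) (by linarith), Real.rpow_natCast]
  set M : ℝ := C * ((N : ℝ) * P) ^ (ε / 2) * ((N : ℝ) ^ m * P ^ (m ^ 2)) / A ^ 2 with hM
  have hM0 : 0 ≤ M := by positivity
  set Tr : Finset (ℕ × ℕ × ℕ) :=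
    Finset.Icc 1 n ×ˢ (Finset.Icc 1 m ×ˢ Finset.range (n + 1)) with hTr
  -- one triple
  have h3 : ∀ x ∈ Tr, ∑ i, W i * (((Finset.Icc (-⌊P⌋) ⌊P⌋).filter (fun k : ℤ => ∃ s : ℂ,
      1 / 2 ≤ s.re ∧ s.re ≤ B ∧ |s.im - k| ≤ B ∧
      A < ‖Gd (lam i) (bb (UP z0 z x.1) x.2.1 (lf (N * P ^ m) x.1 x.2.1)) x.2.2 s‖)).card : ℝ) ≤
      M := by
    intro x hx
    rw [hTr, Finset.mem_product, Finset.mem_product, Finset.mem_range] at hx
    exact h1 N T D hS P hP S F lam W hF x.2.2 ((hpow _).mpr (by omega)) _ (bb_le _ _ _) A hA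
  -- the union
  have h4 : ∀ i, (((Finset.Icc (-⌊P⌋) ⌊P⌋).filter (fun k : ℤ => ∃ s : ℂ, 1 / 2 ≤ s.re ∧ s.re ≤ B ∧
      |s.im - k| ≤ B ∧ ¬ Dp m (lam i) (N * P ^ m) z0 z A s)).card : ℝ) ≤
      ∑ x ∈ Tr, (((Finset.Icc (-⌊P⌋) ⌊P⌋).filter (fun k : ℤ => ∃ s : ℂ,
        1 / 2 ≤ s.re ∧ s.re ≤ B ∧ |s.im - k| ≤ B ∧
        A < ‖Gd (lam i) (bb (UP z0 z x.1) x.2.1 (lf (N * P ^ m) x.1 x.2.1)) x.2.2 s‖)).card : ℝ) := by
    intro i
    have h5 : (Finset.Icc (-⌊P⌋) ⌊P⌋).filter (fun k : ℤ => ∃ s : ℂ, 1 / 2 ≤ s.re ∧ s.re ≤ B ∧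
        |s.im - k| ≤ B ∧ ¬ Dp m (lam i) (N * P ^ m) z0 z A s) ⊆
        Tr.biUnion (fun x => (Finset.Icc (-⌊P⌋) ⌊P⌋).filter (fun k : ℤ => ∃ s : ℂ,
          1 / 2 ≤ s.re ∧ s.re ≤ B ∧ |s.im - k| ≤ B ∧
          A < ‖Gd (lam i) (bb (UP z0 z x.1) x.2.1 (lf (N * P ^ m) x.1 x.2.1)) x.2.2 s‖)) := by
      intro k hk
      rw [Finset.mem_filter] at hk
      obtain ⟨hk1, s, hs1, hs2, hs3, hs4⟩ := hk
      unfold Dp at hs4
      push Not at hs4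
      obtain ⟨j, k', r, hj, hk', hkm, hjQ, hrQ, hlt⟩ := hs4
      rw [Finset.mem_biUnion]
      refine ⟨(j, k', r), ?_, ?_⟩
      · rw [hTr, Finset.mem_product, Finset.mem_product, Finset.mem_range, Finset.mem_Icc,
          Finset.mem_Icc]
        exact ⟨⟨hj, (hpow j).mp hjQ⟩, ⟨hk', hkm⟩, Nat.lt_succ_of_le ((hpow r).mp hrQ)⟩
      · rw [Finset.mem_filter]
        refine ⟨hk1, s, hs1, hs2, hs3, ?_⟩
        rw [Gd_norm]
        have e6 : (2 : ℝ) ^ ((r : ℝ) * (s.re - 1 / 2)) * (2 : ℝ) ^ (-((r : ℝ) * (s.re - 1 / 2))) = 1 := by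
          rw [← Real.rpow_add (by norm_num), add_neg_cancel, Real.rpow_zero]
        have e7 : (0 : ℝ) < (2 : ℝ) ^ ((r : ℝ) * (s.re - 1 / 2)) := by positivity
        calc A = (2 : ℝ) ^ ((r : ℝ) * (s.re - 1 / 2)) *
              (A * (2 : ℝ) ^ (-((r : ℝ) * (s.re - 1 / 2)))) := by
              rw [mul_left_comm, e6, mul_one]
          _ < _ := mul_lt_mul_of_pos_left hlt e7
    calc (((Finset.Icc (-⌊P⌋) ⌊P⌋).filter (fun k : ℤ => ∃ s : ℂ, 1 / 2 ≤ s.re ∧ s.re ≤ B ∧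
      |s.im - k| ≤ B ∧ ¬ Dp m (lam i) (N * P ^ m) z0 z A s)).card : ℝ)
        ≤ ((∑ x ∈ Tr, ((Finset.Icc (-⌊P⌋) ⌊P⌋).filter (fun k : ℤ => ∃ s : ℂ,
        1 / 2 ≤ s.re ∧ s.re ≤ B ∧ |s.im - k| ≤ B ∧
        A < ‖Gd (lam i) (bb (UP z0 z x.1) x.2.1 (lf (N * P ^ m) x.1 x.2.1)) x.2.2 s‖)).card : ℕ) : ℝ) := by
          exact_mod_cast (Finset.card_le_card h5).trans Finset.card_biUnion_le
      _ = _ := by push_cast; rfl
  have h8 := h2 N P hN hP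
  have hcard : (Tr.card : ℝ) ≤ K * K * m * ((N : ℝ) * P) ^ (ε / 2) := by
    have e8 : (Tr.card : ℝ) = (n : ℝ) * ((m : ℝ) * ((n : ℝ) + 1)) := by
      rw [hTr, Finset.card_product, Finset.card_product, Finset.card_range, Nat.card_Icc,
        Nat.card_Icc]
      push_cast
      simp
    have e9 : ((N : ℝ) * P) ^ (ε / 4) * ((N : ℝ) * P) ^ (ε / 4) = ((N : ℝ) * P) ^ (ε / 2) := by
      rw [← Real.rpow_add (by linarith)]
      congr 1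
      ring
    have hn0 : (0 : ℝ) ≤ n := Nat.cast_nonneg n
    rw [e8]
    calc (n : ℝ) * ((m : ℝ) * ((n : ℝ) + 1))
        ≤ ((n : ℝ) + 1) * ((m : ℝ) * ((n : ℝ) + 1)) := by
          gcongr
          linarith
      _ = m * (((n : ℝ) + 1) * ((n : ℝ) + 1)) := by ring
      _ ≤ m * ((K * ((N : ℝ) * P) ^ (ε / 4)) * (K * ((N : ℝ) * P) ^ (ε / 4))) := by
          gcongr
      _ = K * K * m * (((N : ℝ) * P) ^ (ε / 4) * ((N : ℝ) * P) ^ (ε / 4)) := by ring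
      _ = _ := by rw [e9]
  calc ∑ i, W i * (((Finset.Icc (-⌊P⌋) ⌊P⌋).filter (fun k : ℤ => ∃ s : ℂ, 1 / 2 ≤ s.re ∧
        s.re ≤ B ∧ |s.im - k| ≤ B ∧ ¬ Dp m (lam i) (N * P ^ m) z0 z A s)).card : ℝ)
      ≤ ∑ i, W i * ∑ x ∈ Tr, (((Finset.Icc (-⌊P⌋) ⌊P⌋).filter (fun k : ℤ => ∃ s : ℂ,
        1 / 2 ≤ s.re ∧ s.re ≤ B ∧ |s.im - k| ≤ B ∧
        A < ‖Gd (lam i) (bb (UP z0 z x.1) x.2.1 (lf (N * P ^ m) x.1 x.2.1)) x.2.2 s‖)).card : ℝ) :=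
        Finset.sum_le_sum (fun i _ => mul_le_mul_of_nonneg_left (h4 i) (hW i))
    _ = ∑ x ∈ Tr, ∑ i, W i * (((Finset.Icc (-⌊P⌋) ⌊P⌋).filter (fun k : ℤ => ∃ s : ℂ,
        1 / 2 ≤ s.re ∧ s.re ≤ B ∧ |s.im - k| ≤ B ∧
        A < ‖Gd (lam i) (bb (UP z0 z x.1) x.2.1 (lf (N * P ^ m) x.1 x.2.1)) x.2.2 s‖)).card : ℝ) := by
        simp_rw [Finset.mul_sum]
        exact Finset.sum_comm
    _ ≤ ∑ x ∈ Tr, M := Finset.sum_le_sum h3
    _ = Tr.card * M := by rw [Finset.sum_const, nsmul_eq_mul]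
    _ ≤ (K * K * m * ((N : ℝ) * P) ^ (ε / 2)) * M := mul_le_mul_of_nonneg_right hcard hM0
    _ = K * K * m * C * (((N : ℝ) * P) ^ (ε / 2) * ((N : ℝ) * P) ^ (ε / 2)) *
          ((N : ℝ) ^ m * P ^ (m ^ 2)) / A ^ 2 := by
        rw [hM]
        ring
    _ = _ := by
        rw [← Real.rpow_add (by linarith), add_halves]

end Pool.Agent.H47.ZF
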