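import Pool.Agent.H47.ZF.BD
import Pool.Agent.H47.ZF.TT

/-!
Board tzf (MP_52e316_nt), row BDT: large Dirichlet polynomials with twisted coefficients in a window.
-/

set_option autoImplicit false

namespace Pool.Agent.H47.TZF

open MeasureTheory Pool.Agent.H27.ZF Pool.Agent.H47.ZF
open Pool.Agent.H27.L1.H34.GM Pool.Agent.H27.L1.H34.GZ Pool.Agent.H27.L1.H34.GU
  Pool.Agent.H27.L1.H34.GA

/-- twisted and shifted coefficients -/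
noncomputable def tb (b c : ℕ → ℂ) (τ : ℝ) (n : ℕ) : ℂ :=
  if n = 0 then 0 else b n * c n * (n : ℂ) ^ (-(τ * Complex.I))

theorem tb_le (b c : ℕ → ℂ) (τ : ℝ) (hb : ∀ n, ‖b n‖ ≤ 1) (hc : ∀ n, ‖c n‖ ≤ 1) (n : ℕ) :
    ‖tb b c τ n‖ ≤ 1 := by
  unfold tb
  split_ifs with h
  · simp
  · rw [norm_mul, norm_mul, Complex.norm_natCast_cpow_of_pos (by omega)]
    have h1 : (-(τ * Complex.I) : ℂ).re = 0 := by simp
    rw [h1, Real.rpow_zero, mul_one]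
    calc ‖b n‖ * ‖c n‖ ≤ 1 * 1 := mul_le_mul (hb n) (hc n) (norm_nonneg _) zero_le_one
      _ = 1 := one_mul 1

theorem DB_tb (lam lamG b c : ℕ → ℂ) (hl : ∀ n, 1 ≤ n → lamG n = c n * lam n) (r : ℕ) (τ : ℝ)
    (s : ℂ) : DB lamG b r s = DB lam (tb b c τ) r (s - τ * Complex.I) := by
  unfold DB
  refine Finset.sum_congr rfl (fun n hn => ?_)
  have h1 := Finset.mem_Ioc.mp hn
  have hn1 : 1 ≤ n := by omega
  have hn0 : (n : ℂ) ≠ 0 := by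
    have : n ≠ 0 := by omega
    exact_mod_cast this
  rw [hl n hn1, tb, if_neg (by omega)]
  have h2 : (n : ℂ) ^ (-s) = (n : ℂ) ^ (-(τ * Complex.I)) * (n : ℂ) ^ (-(s - τ * Complex.I)) := by
    rw [← Complex.cpow_add _ _ hn0]
    congr 1
    ring
  rw [h2]
  ring

open Classical in
/-- the windows with a large value of a polynomial with twisted coefficients, any centre -/
theorem oneT (m : ℕ) (hm : 1 ≤ m) (B ε : ℝ) (hB : 1 ≤ B) (hε : 0 < ε) (hSOB : T_SOB)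
    (hLSF : T_LSF) : ∃ C : ℝ, 0 < C ∧
  ∀ (N : ℕ) [NeZero N] (T : ℕ → Finset (ZM m)) (D : Set (V m)), SysZ m N T D →
  ∀ H : ℝ, 1 ≤ H → ∀ (S : Type) [Fintype S] [DecidableEq S] (F : S → Mat m → VN m N → ℂ)
    (lam : S → ℕ → ℂ) (W : S → ℝ), Fam T D H F lam W →
  ∀ (c : ℕ → ℂ) (lamG : S → ℕ → ℂ), (∀ n, ‖c n‖ ≤ 1) → (∀ i n, 1 ≤ n → lamG i n = c n * lam i n) →
  ∀ r : ℕ, (2 : ℝ) ^ r ≤ N * H ^ m → ∀ b : ℕ → ℂ, (∀ n, ‖b n‖ ≤ 1) → ∀ t0 A : ℝ, 1 ≤ A →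
    ∑ i, W i * (((Wi t0 H).filter (fun k : ℤ => ∃ s : ℂ, 1 / 2 ≤ s.re ∧ s.re ≤ B ∧
      |s.im - k| ≤ B ∧ A < ‖Gd (lamG i) b r s‖)).card : ℝ) ≤
      C * ((N : ℝ) * H) ^ ε * ((N : ℝ) ^ m * H ^ (m ^ 2)) / A ^ 2 := by
  obtain ⟨C, hC, h1⟩ := one m hm B ε hB hε hSOB hLSF
  refine ⟨C * (2 ^ ε * 2 ^ (m ^ 2)), by positivity, ?_⟩
  intro N _ T D hS H hH S _ _ F lam W hF c lamG hc hl r hr b hb t0 A hA
  have hN : 1 ≤ N := Nat.one_le_iff_ne_zero.mpr (NeZero.ne N)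
  have hN1 : (1 : ℝ) ≤ N := by exact_mod_cast hN
  have hlip : ∀ {Q Q' : ℝ} {f : Mat m → VN m N → ℂ}, Lip D f Q → 0 ≤ Q → Q ≤ Q' → Lip D f Q' := by
    intro Q Q' f h h0 hQ w hw
    have h1 : 0 ≤ sz (w - 1) := norm_nonneg _
    exact (h w hw).trans (pow_le_pow_left₀ (by positivity) (mul_le_mul_of_nonneg_right hQ h1) 2)
  have hF' : Fam T D (H + 1) F lam W :=
    ⟨fun i => ⟨(hF.cus i).1, hlip (hF.cus i).2 (by linarith) (by linarith)⟩, hF.orth, hF.nn, hF.wt⟩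
  have hr' : (2 : ℝ) ^ r ≤ N * (H + 1) ^ m := by
    refine hr.trans ?_
    gcongr
    linarith
  have h2 := h1 N T D hS (H + 1) (by linarith) S F lam W hF' r hr' (tb b c (⌊t0⌋ : ℝ))
    (tb_le b c _ hb hc) A hA
  have hcard : ∀ i, (((Wi t0 H).filter (fun k : ℤ => ∃ s : ℂ, 1 / 2 ≤ s.re ∧ s.re ≤ B ∧
      |s.im - k| ≤ B ∧ A < ‖Gd (lamG i) b r s‖)).card : ℝ) ≤
      (((Finset.Icc (-⌊H + 1⌋) ⌊H + 1⌋).filter (fun k : ℤ => ∃ s : ℂ, 1 / 2 ≤ s.re ∧ s.re ≤ B ∧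
        |s.im - k| ≤ B ∧ A < ‖Gd (lam i) (tb b c (⌊t0⌋ : ℝ)) r s‖)).card : ℝ) := by
    intro i
    have h3 : ((Wi t0 H).filter (fun k : ℤ => ∃ s : ℂ, 1 / 2 ≤ s.re ∧ s.re ≤ B ∧
      |s.im - k| ≤ B ∧ A < ‖Gd (lamG i) b r s‖)).card ≤
      ((Finset.Icc (-⌊H + 1⌋) ⌊H + 1⌋).filter (fun k : ℤ => ∃ s : ℂ, 1 / 2 ≤ s.re ∧ s.re ≤ B ∧
        |s.im - k| ≤ B ∧ A < ‖Gd (lam i) (tb b c (⌊t0⌋ : ℝ)) r s‖)).card := by
      refine Finset.card_le_card_of_injOn (fun k => k - ⌊t0⌋) ?_ (fun a _ b _ hab => by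
        simpa using hab)
      intro k hk
      rw [Finset.mem_coe, Finset.mem_filter, Wi, Finset.mem_Icc, Int.ceil_le, Int.le_floor] at hk
      obtain ⟨⟨hk1, hk2⟩, s, hs1, hs2, hs3, hs4⟩ := hk
      have hf1 : (⌊t0⌋ : ℝ) ≤ t0 := Int.floor_le t0
      have hf2 : t0 < (⌊t0⌋ : ℝ) + 1 := Int.lt_floor_add_one t0
      rw [Finset.mem_coe, Finset.mem_filter, Finset.mem_Icc]
      refine ⟨⟨?_, ?_⟩, s - ((⌊t0⌋ : ℝ) : ℂ) * Complex.I, ?_, ?_, ?_, ?_⟩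
      · rw [neg_le, Int.le_floor]
        push_cast
        linarith
      · rw [Int.le_floor]
        push_cast
        linarith
      · simpa using hs1
      · simpa using hs2
      · have h4 : (s - ((⌊t0⌋ : ℝ) : ℂ) * Complex.I).im - ((k - ⌊t0⌋ : ℤ) : ℝ) = s.im - k := by
          simp
        rw [h4]
        exact hs3
      · rw [Gd_norm] at hs4 ⊢
        rw [DB_tb (lam i) (lamG i) b c (hl i) r (⌊t0⌋ : ℝ) s] at hs4
        have h5 : (s - ((⌊t0⌋ : ℝ) : ℂ) * Complex.I).re = s.re := by simp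
        rw [h5]
        exact hs4
    exact_mod_cast h3
  refine (Finset.sum_le_sum (fun i _ => mul_le_mul_of_nonneg_left (hcard i) (hF.nn i))).trans
    (h2.trans ?_)
  have h6 : ((N : ℝ) * (H + 1)) ^ ε ≤ 2 ^ ε * ((N : ℝ) * H) ^ ε := by
    rw [← Real.mul_rpow (by norm_num) (by positivity)]
    refine Real.rpow_le_rpow (by positivity) ?_ hε.le
    nlinarith
  have h7 : (H + 1) ^ (m ^ 2) ≤ 2 ^ (m ^ 2) * H ^ (m ^ 2) := by
    rw [← mul_pow]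
    exact pow_le_pow_left₀ (by linarith) (by linarith) _
  rw [div_le_div_iff_of_pos_right (by positivity)]
  calc C * ((N : ℝ) * (H + 1)) ^ ε * ((N : ℝ) ^ m * (H + 1) ^ (m ^ 2))
      ≤ C * (2 ^ ε * ((N : ℝ) * H) ^ ε) * ((N : ℝ) ^ m * (2 ^ (m ^ 2) * H ^ (m ^ 2))) := by
        gcongr
    _ = _ := by ring

open Classical in
theorem pf_BDT (hLSF : T_LSF) (hSOB : T_SOB) : T_BDT := by
  intro m B ε hm hB hε
  obtain ⟨C, hC, h1⟩ := oneT m hm B (ε / 2) hB (by linarith) hSOB hLSF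
  obtain ⟨K, hK, h2⟩ := logcnt m (ε / 4) (by linarith)
  refine ⟨K * K * m * C, by
    have : (0 : ℝ) < m := by exact_mod_cast hm
    positivity, ?_⟩
  intro N _ T D hS P hP S _ _ F lam W hF c lamG hc hl t0 z0 z A hA
  have hW := hF.nn
  have hN : 1 ≤ N := Nat.one_le_iff_ne_zero.mpr (NeZero.ne N)
  have hN1 : (1 : ℝ) ≤ N := by exact_mod_cast hN
  have hNP : 1 ≤ (N : ℝ) * P := by nlinarith
  have hQ : 1 ≤ (N : ℝ) * P ^ m := by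
    have : (1 : ℝ) ≤ P ^ m := one_le_pow₀ hP
    nlinarith
  set n : ℕ := ⌊Real.logb 2 (N * P ^ m)⌋₊ with hn
  have hpow : ∀ j : ℕ, (2 : ℝ) ^ j ≤ N * P ^ m ↔ j ≤ n := by
    intro j
    rw [hn, Nat.le_floor_iff (Real.logb_nonneg (by norm_num) hQ), Real.le_logb_iff_rpow_le
      (by norm_num) (by linarith), Real.rpow_natCast]
  set M : ℝ := C * ((N : ℝ) * P) ^ (ε / 2) * ((N : ℝ) ^ m * P ^ (m ^ 2)) / A ^ 2 with hM
  have hM0 : 0 ≤ M := by positivity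
  set Tr : Finset (ℕ × ℕ × ℕ) :=
    Finset.Icc 1 n ×ˢ (Finset.Icc 1 m ×ˢ Finset.range (n + 1)) with hTr
  -- one triple
  have h3 : ∀ x ∈ Tr, ∑ i, W i * (((Wi t0 P).filter (fun k : ℤ => ∃ s : ℂ,
      1 / 2 ≤ s.re ∧ s.re ≤ B ∧ |s.im - k| ≤ B ∧
      A < ‖Gd (lamG i) (bb (UP z0 z x.1) x.2.1 (lf (N * P ^ m) x.1 x.2.1)) x.2.2 s‖)).card : ℝ) ≤
      M := by
    intro x hx
    rw [hTr, Finset.mem_product, Finset.mem_product, Finset.mem_range] at hx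
    exact h1 N T D hS P hP S F lam W hF c lamG hc hl x.2.2 ((hpow _).mpr (by omega)) _
      (bb_le _ _ _) t0 A hA
  -- the union
  have h4 : ∀ i, (((Wi t0 P).filter (fun k : ℤ => ∃ s : ℂ, 1 / 2 ≤ s.re ∧ s.re ≤ B ∧
      |s.im - k| ≤ B ∧ ¬ Dp m (lamG i) (N * P ^ m) z0 z A s)).card : ℝ) ≤
      ∑ x ∈ Tr, (((Wi t0 P).filter (fun k : ℤ => ∃ s : ℂ,
        1 / 2 ≤ s.re ∧ s.re ≤ B ∧ |s.im - k| ≤ B ∧
        A < ‖Gd (lamG i) (bb (UP z0 z x.1) x.2.1 (lf (N * P ^ m) x.1 x.2.1)) x.2.2 s‖)).card : ℝ) := by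
    intro i
    have h5 : (Wi t0 P).filter (fun k : ℤ => ∃ s : ℂ, 1 / 2 ≤ s.re ∧ s.re ≤ B ∧
        |s.im - k| ≤ B ∧ ¬ Dp m (lamG i) (N * P ^ m) z0 z A s) ⊆
        Tr.biUnion (fun x => (Wi t0 P).filter (fun k : ℤ => ∃ s : ℂ,
          1 / 2 ≤ s.re ∧ s.re ≤ B ∧ |s.im - k| ≤ B ∧
          A < ‖Gd (lamG i) (bb (UP z0 z x.1) x.2.1 (lf (N * P ^ m) x.1 x.2.1)) x.2.2 s‖)) := by
      intro k hk
      rw [Finset.mem_filter] at hk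
      obtain ⟨hk1, s, hs1, hs2, hs3, hs4⟩ := hk
      unfold Dp at hs4
      push Not at hs4
      obtain ⟨j, k', r, hj, hk', hkm, hjQ, hrQ, hlt⟩ := hs4
      rw [Finset.mem_biUnion]
      refine ⟨(j, k', r), ?_, ?_⟩
      · rw [hTr, Finset.mem_product, Finset.mem_product, Finset.mem_range, Finset.mem_Icc,
          Finset.mem_Icc]
        exact ⟨⟨hj, (hpow j).mp hjQ⟩, ⟨hk', hkm⟩, Nat.lt_succ_of_le ((hpow r).mp hrQ)⟩
      · rw [Finset.mem_filter]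
        refine ⟨hk1, s, hs1, hs2, hs3, ?_⟩
        rw [Gd_norm]
        have e6 : (2 : ℝ) ^ ((r : ℝ) * (s.re - 1 / 2)) * (2 : ℝ) ^ (-((r : ℝ) * (s.re - 1 / 2))) = 1 := by
          rw [← Real.rpow_add (by norm_num), add_neg_cancel, Real.rpow_zero]
        have e7 : (0 : ℝ) < (2 : ℝ) ^ ((r : ℝ) * (s.re - 1 / 2)) := by positivity
        calc A = (2 : ℝ) ^ ((r : ℝ) * (s.re - 1 / 2)) *
              (A * (2 : ℝ) ^ (-((r : ℝ) * (s.re - 1 / 2)))) := by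
              rw [mul_left_comm, e6, mul_one]
          _ < _ := mul_lt_mul_of_pos_left hlt e7
    calc (((Wi t0 P).filter (fun k : ℤ => ∃ s : ℂ, 1 / 2 ≤ s.re ∧ s.re ≤ B ∧
      |s.im - k| ≤ B ∧ ¬ Dp m (lamG i) (N * P ^ m) z0 z A s)).card : ℝ)
        ≤ ((∑ x ∈ Tr, ((Wi t0 P).filter (fun k : ℤ => ∃ s : ℂ,
        1 / 2 ≤ s.re ∧ s.re ≤ B ∧ |s.im - k| ≤ B ∧
        A < ‖Gd (lamG i) (bb (UP z0 z x.1) x.2.1 (lf (N * P ^ m) x.1 x.2.1)) x.2.2 s‖)).card : ℕ) : ℝ) := by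
          exact_mod_cast (Finset.card_le_card h5).trans Finset.card_biUnion_le
      _ = _ := by push_cast; rfl
  have h8 := h2 N P hN hP
  have hcard : (Tr.card : ℝ) ≤ K * K * m * ((N : ℝ) * P) ^ (ε / 2) := by
    have e8 : (Tr.card : ℝ) = (n : ℝ) * ((m : ℝ) * ((n : ℝ) + 1)) := by
      rw [hTr, Finset.card_product, Finset.card_product, Finset.card_range, Nat.card_Icc,
        Nat.card_Icc]
      push_cast
      simp
    have e9 : ((N : ℝ) * P) ^ (ε / 4) * ((N : ℝ) * P) ^ (ε / 4) = ((N : ℝ) * P) ^ (ε / 2) := by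
      rw [← Real.rpow_add (by linarith)]
      congr 1
      ring
    have hn0 : (0 : ℝ) ≤ n := Nat.cast_nonneg n
    rw [e8]
    calc (n : ℝ) * ((m : ℝ) * ((n : ℝ) + 1))
        ≤ ((n : ℝ) + 1) * ((m : ℝ) * ((n : ℝ) + 1)) := by
          gcongr
          linarith
      _ = m * (((n : ℝ) + 1) * ((n : ℝ) + 1)) := by ring
      _ ≤ m * ((K * ((N : ℝ) * P) ^ (ε / 4)) * (K * ((N : ℝ) * P) ^ (ε / 4))) := by
          gcongr
      _ = K * K * m * (((N : ℝ) * P) ^ (ε / 4) * ((N : ℝ) * P) ^ (ε / 4)) := by ring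
      _ = _ := by rw [e9]
  calc ∑ i, W i * (((Wi t0 P).filter (fun k : ℤ => ∃ s : ℂ, 1 / 2 ≤ s.re ∧
        s.re ≤ B ∧ |s.im - k| ≤ B ∧ ¬ Dp m (lamG i) (N * P ^ m) z0 z A s)).card : ℝ)
      ≤ ∑ i, W i * ∑ x ∈ Tr, (((Wi t0 P).filter (fun k : ℤ => ∃ s : ℂ,
        1 / 2 ≤ s.re ∧ s.re ≤ B ∧ |s.im - k| ≤ B ∧
        A < ‖Gd (lamG i) (bb (UP z0 z x.1) x.2.1 (lf (N * P ^ m) x.1 x.2.1)) x.2.2 s‖)).card : ℝ) :=
        Finset.sum_le_sum (fun i _ => mul_le_mul_of_nonneg_left (h4 i) (hW i))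
    _ = ∑ x ∈ Tr, ∑ i, W i * (((Wi t0 P).filter (fun k : ℤ => ∃ s : ℂ,
        1 / 2 ≤ s.re ∧ s.re ≤ B ∧ |s.im - k| ≤ B ∧
        A < ‖Gd (lamG i) (bb (UP z0 z x.1) x.2.1 (lf (N * P ^ m) x.1 x.2.1)) x.2.2 s‖)).card : ℝ) := by
        simp_rw [Finset.mul_sum]
        exact Finset.sum_comm
    _ ≤ ∑ x ∈ Tr, M := Finset.sum_le_sum h3
    _ = Tr.card * M := by rw [Finset.sum_const, nsmul_eq_mul]
    _ ≤ (K * K * m * ((N : ℝ) * P) ^ (ε / 2)) * M := mul_le_mul_of_nonneg_right hcard hM0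
    _ = K * K * m * C * (((N : ℝ) * P) ^ (ε / 2) * ((N : ℝ) * P) ^ (ε / 2)) *
          ((N : ℝ) ^ m * P ^ (m ^ 2)) / A ^ 2 := by
        rw [hM]
        ring
    _ = _ := by
        rw [← Real.rpow_add (by linarith), add_halves]

end Pool.Agent.H47.TZF
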