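import Pool.Agent.H47.CT.ZWT
import Pool.Agent.H34.ZF.BL
import Pool.Agent.H47.ZF.TT

/-!
Board tzf (MP_52e316_nt), row BLT: few twisted L-functions are large to the right of the critical line.
-/

set_option autoImplicit false

namespace Pool.Agent.H47.TZF

open MeasureTheory Pool.Agent.H27.L1.H34.GM Pool.Agent.H27.L1.H34.GZ Pool.Agent.H27.L1.H34.GU
  Pool.Agent.H27.L1.H34.GA
open Pool.Agent.H27.ZF (Fam Dp Sq)
open Pool.Agent.H31.CT (Q3 Tw)
open Pool.Agent.H47.CT (win2 Q3_scale lip_le)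

/-- the number of the integers of a window -/
theorem Wi_card (t0 H : ℝ) (hH : 1 ≤ H) : ((Wi t0 H).card : ℝ) ≤ 3 * H := by
  rw [Wi, Int.card_Icc]
  have h4 : ((⌊t0 + H⌋ + 1 - ⌈t0 - H⌉ : ℤ) : ℝ) ≤ 3 * H := by
    push_cast
    linarith [Int.floor_le (t0 + H), Int.le_ceil (t0 - H)]
  by_cases h5 : 0 ≤ ⌊t0 + H⌋ + 1 - ⌈t0 - H⌉
  · have h6 : (((⌊t0 + H⌋ + 1 - ⌈t0 - H⌉).toNat : ℕ) : ℝ) =
        ((⌊t0 + H⌋ + 1 - ⌈t0 - H⌉ : ℤ) : ℝ) := by
      exact_mod_cast Int.toNat_of_nonneg h5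
    rw [h6]
    exact h4
  · rw [Int.toNat_of_nonpos (by omega)]
    push_cast
    linarith

theorem Q3_ge {m N : ℕ} {B0 H U : ℝ} (hB0 : 1 ≤ B0) (hU : 1 ≤ U) :
    (N : ℝ) ^ m * H ^ (m ^ 2) ≤ Q3 m N B0 H U := by
  unfold Q3
  have : 0 ≤ B0 ^ ((m : ℝ) / 2) * U ^ ((m : ℝ) ^ 2 / 2) := by positivity
  linarith

open Classical in
theorem pf_BLT (h_LSF : Pool.Agent.H27.ZF.T_LSF) : T_BLT := by
  intro m d B ε hm1 hd hd1 hB hε
  obtain ⟨CW, hCW, hwt⟩ := Pool.Agent.H34.ZF.wt_sum h_LSF m ε hm1 hε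
  obtain ⟨σ2, hσ2, hfar⟩ := Pool.Agent.H31.ZN.pf_FAR Pool.Agent.H27.L1.H34.GZ.a_TNZ m hm1
  obtain ⟨σ1, hσ1⟩ : ∃ σ1 : ℝ, σ1 = max B σ2 := ⟨_, rfl⟩
  have hσB : B ≤ σ1 := by rw [hσ1]; exact le_max_left _ _
  have hσσ : σ2 ≤ σ1 := by rw [hσ1]; exact le_max_right _ _
  obtain ⟨C0, hC0, hstr⟩ := Pool.Agent.H34.ZN.c_STR m (2 * (m ^ 2 + 1)) hm1 d σ1 B hd hd1
    (hσ2.trans hσσ) (by linarith)
  obtain ⟨e, he, he0, he1, hee⟩ : ∃ e : ℝ, e = min ε 1 ∧ 0 < e ∧ e ≤ 1 ∧ e ≤ ε :=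
    ⟨min ε 1, rfl, lt_min hε one_pos, min_le_right _ _, min_le_left _ _⟩
  obtain ⟨C1, hC1, h1⟩ := Pool.Agent.H31.CT.c_LVT m hm1 e he0
  obtain ⟨C2, hC2d⟩ : ∃ C2 : ℝ, C2 = 2 ^ (3 * (m ^ 2 + 1) + 3) * C1 := ⟨_, rfl⟩
  have hC2 : 0 < C2 := by rw [hC2d]; positivity
  refine ⟨2 * CW * C0 ^ 2 + C2 * C0 ^ 2, by positivity, ?_⟩
  intro N _ T D hS B0 H U hB0 hH hHU S _ _ F lam W hF c M _ G lamG hc hG L hL t0 ht0 A hA
  obtain ⟨L1, hL1, hb⟩ := h1 N T D hS B0 H U hB0 hH hHU S F lam W hF.cus hF.orth hF.nn hF.wt c M G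
    lamG hc hG
  have eL1 : ∀ i, L1 i = L i := fun i => Pool.Agent.H27.L1.H34.GHK.isl_eq (hL1 i) (hL i)
  have hN1 : 1 ≤ N := by
    have := hS.two_le
    omega
  have hN1' : (1 : ℝ) ≤ N := by exact_mod_cast hN1
  have hU1 : 1 ≤ U := hH.trans hHU
  have hH0 : 0 < H := by linarith
  have hA0 : 0 < A := by linarith
  have hZ1 : 1 ≤ (N : ℝ) * B0 * U := by
    have : 1 ≤ (N : ℝ) * B0 := one_le_mul_of_one_le_of_one_le hN1' hB0
    exact one_le_mul_of_one_le_of_one_le this hU1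
  have hQ0 : 0 ≤ Q3 m N B0 H U := by unfold Q3; positivity
  have hpe : ((N : ℝ) * B0 * U) ^ e ≤ ((N : ℝ) * B0 * U) ^ ε :=
    Real.rpow_le_rpow_of_exponent_le hZ1 hee
  obtain ⟨X, hX⟩ : ∃ X : ℝ, X = ((N : ℝ) * B0 * U) ^ ε * Q3 m N B0 H U := ⟨_, rfl⟩
  have hX0 : 0 ≤ X := by rw [hX]; positivity
  rw [← hX]
  rcases lt_or_ge A C0 with hcase | hcase
  · -- small `A`: the trivial bound
    have h2 := hwt N T D hS H hH S F lam W hF
    have h3 : ∑ i, W i * (((Wi t0 H).filter (fun k : ℤ => ∃ s : ℂ,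
        1 / 2 + d ≤ s.re ∧ s.re ≤ B ∧ |s.im - k| ≤ B ∧ A < ‖L i s‖)).card : ℝ) ≤
        2 * ∑ i, W i * (2 * H) := by
      rw [Finset.mul_sum]
      refine Finset.sum_le_sum fun i _ => ?_
      have h4 : (((Wi t0 H).filter (fun k : ℤ => ∃ s : ℂ,
        1 / 2 + d ≤ s.re ∧ s.re ≤ B ∧ |s.im - k| ≤ B ∧ A < ‖L i s‖)).card : ℝ) ≤ 4 * H := by
        refine le_trans (by exact_mod_cast Finset.card_filter_le _ _)
          ((Wi_card t0 H hH).trans (by linarith))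
      calc W i * _ ≤ W i * (4 * H) := mul_le_mul_of_nonneg_left h4 (hF.nn i)
        _ = _ := by ring
    have h5 : CW * ((N : ℝ) * H) ^ ε * ((N : ℝ) ^ m * H ^ (m ^ 2)) ≤ CW * X := by
      rw [hX, mul_assoc]
      refine mul_le_mul_of_nonneg_left ?_ hCW.le
      refine mul_le_mul ?_ (Q3_ge hB0 hU1) (by positivity) (by positivity)
      refine Real.rpow_le_rpow (by positivity) ?_ hε.le
      calc (N : ℝ) * H = N * 1 * H := by ring
        _ ≤ N * B0 * U := by gcongr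
    rw [le_div_iff₀ (by positivity)]
    have h6 : A ^ 2 ≤ C0 ^ 2 := pow_le_pow_left₀ hA0.le hcase.le 2
    have h7 : (0 : ℝ) ≤ C2 * C0 ^ 2 * X := by positivity
    calc _ ≤ (2 * (CW * X)) * C0 ^ 2 := by
          refine mul_le_mul (h3.trans (by linarith)) h6 (by positivity) (by positivity)
      _ ≤ _ := by nlinarith
  · obtain ⟨A', hA'⟩ : ∃ A' : ℝ, A' = A / C0 := ⟨_, rfl⟩
    have hA'1 : 1 ≤ A' := by
      rw [hA', le_div_iff₀ hC0, one_mul]
      exact hcase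
    -- the second moment at the scale `R`
    have hall : ∀ R : ℝ, 1 ≤ R → ∀ J : S → Finset ℝ,
        (∀ i, ∀ a ∈ J i, ∀ b ∈ J i, a ≠ b → 1 ≤ |a - b|) →
        (∀ i, ∀ t ∈ J i, |t - t0| ≤ R * H) →
        ∑ i ∈ (Finset.univ : Finset S), W i * ∑ t ∈ J i,
          (fun i (u : ℝ) => ‖L i (1 / 2 + u * Complex.I)‖) i t ^ 2 ≤
          (C1 * X) * R ^ (m ^ 2 + 1) := by
      intro R hR J hJ hJR
      have hR0 : 0 < R := by linarith
      have hRH : H ≤ R * H := le_mul_of_one_le_left (by linarith) hR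
      have hRU : U ≤ R * U := le_mul_of_one_le_left (by linarith) hR
      obtain ⟨L', hL', hb'⟩ := h1 N T D hS B0 (R * H) (R * U) hB0 (hH.trans hRH)
        (mul_le_mul_of_nonneg_left hHU hR0.le) S F lam W
        (fun i => ⟨(hF.cus i).1, lip_le (hF.cus i).2 (by linarith) hRH⟩) hF.orth hF.nn hF.wt c M G
        lamG hc
        ⟨hG.sys, fun i => ⟨(hG.form i).1, lip_le (hG.form i).2.1 (by linarith) hRU,
          (hG.form i).2.2⟩, hG.tw⟩
      have e1 : ∀ i, L i = L' i := fun i => Pool.Agent.H27.L1.H34.GHK.isl_eq (hL i) (hL' i)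
      simp only [e1]
      have ht : R * H + |t0| ≤ R * U := by
        have h3 : |t0| ≤ R * |t0| := le_mul_of_one_le_left (abs_nonneg _) hR
        calc R * H + |t0| ≤ R * H + R * |t0| := by linarith
          _ = R * (H + |t0|) := by ring
          _ ≤ R * U := mul_le_mul_of_nonneg_left ht0 hR0.le
      refine (hb' t0 J ht hJ hJR).trans ?_
      have h4 : ((N : ℝ) * B0 * (R * U)) ^ e ≤ ((N : ℝ) * B0 * U) ^ ε * R := by
        rw [show (N : ℝ) * B0 * (R * U) = ((N : ℝ) * B0 * U) * R by ring,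
          Real.mul_rpow (by positivity) hR0.le]
        have h5 : R ^ e ≤ R := by
          calc R ^ e ≤ R ^ (1 : ℝ) := Real.rpow_le_rpow_of_exponent_le hR he1
            _ = R := Real.rpow_one R
        gcongr
      have h5 : 0 ≤ Q3 m N B0 (R * H) (R * U) := by unfold Q3; positivity
      calc C1 * ((N : ℝ) * B0 * (R * U)) ^ e * Q3 m N B0 (R * H) (R * U) ≤
          C1 * (((N : ℝ) * B0 * U) ^ ε * R) * (R ^ (m ^ 2) * Q3 m N B0 H U) := by
            gcongr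
            exact Q3_scale hB0 hH hU1 hR
        _ = _ := by
            rw [hX]
            ring
    have hwin := win2 (Finset.univ : Finset S) W
      (fun i (u : ℝ) => ‖L i (1 / 2 + u * Complex.I)‖) H t0
      (C1 * X) A' (m ^ 2 + 1) (m ^ 2 + 1)
      (fun i _ => hF.nn i) (fun i u => norm_nonneg _) hH (by positivity) (by linarith)
      (by nlinarith) hall
    have hsub : ∀ i, ((Wi t0 H).filter (fun k : ℤ => ∃ s : ℂ, 1 / 2 + d ≤ s.re ∧ s.re ≤ B ∧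
      |s.im - k| ≤ B ∧ A < ‖L i s‖)).card ≤
        ((Finset.Icc ⌈t0 - H⌉ ⌊t0 + H⌋ : Finset ℤ).filter
        (fun k : ℤ => ∃ u : ℝ, A' * (1 + |u - k|) ^ (2 * (m ^ 2 + 1)) <
          ‖L i (1 / 2 + u * Complex.I)‖)).card := by
      intro i
      refine Finset.card_le_card (fun k hk => ?_)
      rw [Finset.mem_filter, Wi] at hk
      rw [Finset.mem_filter]
      refine ⟨hk.1, ?_⟩
      obtain ⟨s, hs1, hs2, hs3, hs4⟩ := hk.2
      by_contra hc'
      simp only [not_exists, not_lt] at hc'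
      have hk1 := Finset.mem_Icc.1 hk.1
      rw [Int.ceil_le, Int.le_floor] at hk1
      have hkU : |(k : ℝ)| ≤ U := by
        have h6 : |(k : ℝ) - t0| ≤ H := by
          rw [abs_le]
          constructor <;> linarith [hk1.1, hk1.2]
        have h7 := abs_add_le ((k : ℝ) - t0) t0
        rw [sub_add_cancel] at h7
        linarith
      have hnz : NZ (G i) := Pool.Agent.H27.L1.H69.GA.spx_nz (hG.sys i).1
        (by rw [(hG.form i).2.2]; exact one_ne_zero)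
      have h8 := hstr (M i) T D (hG.sys i).1 (G i) (lamG i) U (hG.form i).1 (hG.form i).2.2
        (hG.form i).2.1 hU1 (L i) (hL i) (fun w hw => by
          have h3 := hfar (M i) T D (hG.sys i).1 (G i) (lamG i) (hG.form i).1 hnz (L i) (hL i) w
            (hσσ.trans hw)
          have h4 : ‖L i w‖ ≤ ‖L i w - 1‖ + ‖(1 : ℂ)‖ := by
            have := norm_add_le (L i w - 1) 1
            rwa [sub_add_cancel] at this
          rw [norm_one] at h4
          linarith) k A' hkU hA'1 hc' s hs1 (hs2.trans hσB) hs3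
      have h3 : C0 * A' = A := by
        rw [hA']
        field_simp
      rw [h3] at h8
      linarith
    calc ∑ i, W i * (((Wi t0 H).filter (fun k : ℤ => ∃ s : ℂ, 1 / 2 + d ≤ s.re ∧ s.re ≤ B ∧
          |s.im - k| ≤ B ∧ A < ‖L i s‖)).card : ℝ) ≤
        ∑ i, W i * (((Finset.Icc ⌈t0 - H⌉ ⌊t0 + H⌋ : Finset ℤ).filter
        (fun k : ℤ => ∃ u : ℝ, A' * (1 + |u - k|) ^ (2 * (m ^ 2 + 1)) <
          ‖L i (1 / 2 + u * Complex.I)‖)).card : ℝ) :=
          Finset.sum_le_sum (fun i _ => mul_le_mul_of_nonneg_left (by exact_mod_cast hsub i)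
            (hF.nn i))
      _ ≤ 2 ^ (3 * (m ^ 2 + 1) + 3) * (C1 * X) / A' ^ 2 := hwin
      _ = C2 * C0 ^ 2 * X / A ^ 2 := by
          rw [hC2d, hA', div_pow]
          field_simp
      _ ≤ _ := by
          have : 0 ≤ 2 * CW * C0 ^ 2 := by positivity
          gcongr
          linarith

end Pool.Agent.H47.TZF
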