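import Pool.Agent.H27.ZF.TB

/-!
Board zf (MP_52e316_nt), row BD, first part: integrals over windows and the count for one Dirichlet polynomial.
-/

set_option autoImplicit false

namespace Pool.Agent.H47.ZF

open MeasureTheory Pool.Agent.H27.ZF

/-- superadditivity over finite sets -/
theorem sum_lint_le {α ι : Type*} [MeasurableSpace α] (μ : Measure α) (s : Finset ι)
    (f : ι → α → ENNReal) : ∑ i ∈ s, ∫⁻ x, f i x ∂μ ≤ ∫⁻ x, ∑ i ∈ s, f i x ∂μ := by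
  classical
  induction s using Finset.induction_on with
  | empty => simp
  | insert a s ha ih =>
    rw [Finset.sum_insert ha]
    simp_rw [Finset.sum_insert ha]
    exact (add_le_add le_rfl ih).trans (le_lintegral_add _ _)

theorem shift (a b k : ℝ) (h : ℝ → ENNReal) : ∫⁻ t in Set.Icc a b, h (t + k) =
    ∫⁻ u, (Set.Icc (a + k) (b + k)).indicator h u := by
  rw [← lintegral_indicator measurableSet_Icc,
    ← lintegral_add_right_eq_self ((Set.Icc (a + k) (b + k)).indicator h) k]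
  congr 1
  ext t
  by_cases ht : t ∈ Set.Icc a b
  · rw [Set.indicator_of_mem ht, Set.indicator_of_mem]
    exact ⟨by linarith [ht.1], by linarith [ht.2]⟩
  · rw [Set.indicator_of_notMem ht, Set.indicator_of_notMem]
    intro h'
    exact ht ⟨by linarith [h'.1], by linarith [h'.2]⟩

/-- few integers are near a point -/
theorem near (B P u : ℝ) (hB : 1 ≤ B) : (((Finset.Icc (-⌊P⌋) ⌊P⌋).filter
    (fun k : ℤ => u ∈ Set.Icc (-B + (k : ℝ)) (B + (k : ℝ)))).card : ℝ) ≤ 2 * B + 1 := by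
  have h1 : (Finset.Icc (-⌊P⌋) ⌊P⌋).filter (fun k : ℤ => u ∈ Set.Icc (-B + (k : ℝ)) (B + (k : ℝ))) ⊆
      Finset.Icc ⌈u - B⌉ ⌊u + B⌋ := by
    intro k hk
    rw [Finset.mem_filter, Set.mem_Icc] at hk
    rw [Finset.mem_Icc]
    exact ⟨Int.ceil_le.mpr (by linarith [hk.2.2]), Int.le_floor.mpr (by linarith [hk.2.1])⟩
  have h2 := Finset.card_le_card h1
  rw [Int.card_Icc] at h2
  have h3 : (((⌊u + B⌋ + 1 - ⌈u - B⌉).toNat : ℕ) : ℝ) ≤ 2 * B + 1 := by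
    have h4 : ((⌊u + B⌋ + 1 - ⌈u - B⌉ : ℤ) : ℝ) ≤ 2 * B + 1 := by
      push_cast
      linarith [Int.floor_le (u + B), Int.le_ceil (u - B)]
    by_cases h5 : 0 ≤ ⌊u + B⌋ + 1 - ⌈u - B⌉
    · have h6 : (((⌊u + B⌋ + 1 - ⌈u - B⌉).toNat : ℕ) : ℝ) = ((⌊u + B⌋ + 1 - ⌈u - B⌉ : ℤ) : ℝ) := by
        exact_mod_cast Int.toNat_of_nonneg h5
      rw [h6]
      exact h4
    · rw [Int.toNat_of_nonpos (by omega)]
      push_cast
      linarith
  calc (((Finset.Icc (-⌊P⌋) ⌊P⌋).filter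
    (fun k : ℤ => u ∈ Set.Icc (-B + (k : ℝ)) (B + (k : ℝ)))).card : ℝ)
      ≤ (((⌊u + B⌋ + 1 - ⌈u - B⌉).toNat : ℕ) : ℝ) := by exact_mod_cast h2
    _ ≤ _ := h3

theorem ptw (B P : ℝ) (hB : 1 ≤ B) (hP : 1 ≤ P) (h : ℝ → ENNReal) (u : ℝ) :
    ∑ k ∈ Finset.Icc (-⌊P⌋) ⌊P⌋, (Set.Icc (-B + (k : ℝ)) (B + (k : ℝ))).indicator h u ≤
      ENNReal.ofReal (2 * B + 1) * ∑ τ ∈ Finset.Icc (-⌈B⌉) ⌈B⌉,
        (Set.Icc (-P + (τ : ℝ)) (P + (τ : ℝ))).indicator h u := by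
  classical
  have e1 : ∑ k ∈ Finset.Icc (-⌊P⌋) ⌊P⌋, (Set.Icc (-B + (k : ℝ)) (B + (k : ℝ))).indicator h u =
      (((Finset.Icc (-⌊P⌋) ⌊P⌋).filter
        (fun k : ℤ => u ∈ Set.Icc (-B + (k : ℝ)) (B + (k : ℝ)))).card : ENNReal) * h u := by
    rw [← nsmul_eq_mul, ← Finset.sum_const, Finset.sum_filter]
    exact Finset.sum_congr rfl (fun k _ => by rw [Set.indicator_apply])
  rw [e1]
  rcases Finset.eq_empty_or_nonempty ((Finset.Icc (-⌊P⌋) ⌊P⌋).filter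
        (fun k : ℤ => u ∈ Set.Icc (-B + (k : ℝ)) (B + (k : ℝ)))) with he | ⟨k, hk⟩
  · rw [he]
    simp
  rw [Finset.mem_filter, Finset.mem_Icc, Set.mem_Icc] at hk
  have hP1 : (1 : ℤ) ≤ ⌊P⌋ := Int.le_floor.mpr (by exact_mod_cast hP)
  have hkP : (k : ℝ) ≤ P := (Int.cast_le.mpr hk.1.2).trans (Int.floor_le P)
  have hkP' : -P ≤ (k : ℝ) := by
    have h1 : ((-⌊P⌋ : ℤ) : ℝ) ≤ (k : ℝ) := Int.cast_le.mpr hk.1.1
    push_cast at h1
    linarith [Int.floor_le P]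
  have hτ : ∃ τ : ℤ, τ ∈ Finset.Icc (-⌈B⌉) ⌈B⌉ ∧ u ∈ Set.Icc (-P + (τ : ℝ)) (P + (τ : ℝ)) := by
    have hc0 : (0 : ℤ) ≤ ⌈B⌉ := Int.ceil_nonneg (by linarith)
    by_cases hu : |u| ≤ P
    · refine ⟨0, Finset.mem_Icc.mpr ⟨by omega, hc0⟩, ?_, ?_⟩
      · push_cast
        linarith [(abs_le.mp hu).1]
      · push_cast
        linarith [(abs_le.mp hu).2]
    · rw [not_le] at hu
      rcases le_total 0 u with h0 | h0
      · rw [abs_of_nonneg h0] at hu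
        refine ⟨⌈u - P⌉, Finset.mem_Icc.mpr ⟨?_, Int.ceil_le_ceil (by linarith [hk.2.2])⟩, ?_, ?_⟩
        · have : (0 : ℤ) ≤ ⌈u - P⌉ := Int.ceil_nonneg (by linarith)
          omega
        · linarith [Int.ceil_lt_add_one (u - P)]
        · linarith [Int.le_ceil (u - P)]
      · rw [abs_of_nonpos h0] at hu
        refine ⟨-⌈-u - P⌉, Finset.mem_Icc.mpr ⟨?_, ?_⟩, ?_, ?_⟩
        · have : ⌈-u - P⌉ ≤ ⌈B⌉ := Int.ceil_le_ceil (by linarith [hk.2.1])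
          omega
        · have : (0 : ℤ) ≤ ⌈-u - P⌉ := Int.ceil_nonneg (by linarith)
          omega
        · push_cast
          linarith [Int.le_ceil (-u - P)]
        · push_cast
          linarith [Int.ceil_lt_add_one (-u - P)]
  obtain ⟨τ, hτ1, hτ2⟩ := hτ
  have h3 : h u ≤ ∑ τ ∈ Finset.Icc (-⌈B⌉) ⌈B⌉,
        (Set.Icc (-P + (τ : ℝ)) (P + (τ : ℝ))).indicator h u := by
    calc h u = (Set.Icc (-P + (τ : ℝ)) (P + (τ : ℝ))).indicator h u :=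
          (Set.indicator_of_mem hτ2 h).symm
      _ ≤ _ := Finset.single_le_sum
          (f := fun τ : ℤ => (Set.Icc (-P + (τ : ℝ)) (P + (τ : ℝ))).indicator h u)
          (fun _ _ => bot_le) hτ1
  refine mul_le_mul' ?_ h3
  rw [← ENNReal.ofReal_natCast]
  exact ENNReal.ofReal_le_ofReal (near B P u hB)

/-- the windows around the integers are covered by few translates of the window `[-P, P]` -/
theorem cover (B P : ℝ) (hB : 1 ≤ B) (hP : 1 ≤ P) (h : ℝ → ENNReal) (hh : Measurable h) :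
    ∑ k ∈ Finset.Icc (-⌊P⌋) ⌊P⌋, ∫⁻ t in Set.Icc (-B) B, h (t + (k : ℝ)) ≤
      ENNReal.ofReal (2 * B + 1) * ∑ τ ∈ Finset.Icc (-⌈B⌉) ⌈B⌉,
        ∫⁻ t in Set.Icc (-P) P, h (t + (τ : ℝ)) := by
  simp_rw [shift]
  calc ∑ k ∈ Finset.Icc (-⌊P⌋) ⌊P⌋, ∫⁻ u, (Set.Icc (-B + (k : ℝ)) (B + (k : ℝ))).indicator h u
      ≤ ∫⁻ u, ∑ k ∈ Finset.Icc (-⌊P⌋) ⌊P⌋, (Set.Icc (-B + (k : ℝ)) (B + (k : ℝ))).indicator h u :=
        sum_lint_le _ _ _
    _ ≤ ∫⁻ u, ENNReal.ofReal (2 * B + 1) * ∑ τ ∈ Finset.Icc (-⌈B⌉) ⌈B⌉,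
        (Set.Icc (-P + (τ : ℝ)) (P + (τ : ℝ))).indicator h u :=
        lintegral_mono (fun u => ptw B P hB hP h u)
    _ = _ := by
        rw [lintegral_const_mul' _ _ ENNReal.ofReal_ne_top, lintegral_finsetSum]
        intro τ _
        exact hh.indicator measurableSet_Icc

/-- the Dirichlet polynomial over a block times `2 ^ (r (s - 1/2))` -/
noncomputable def Gd (lam b : ℕ → ℂ) (r : ℕ) (s : ℂ) : ℂ :=
  (2 : ℂ) ^ ((r : ℂ) * (s - 1 / 2)) * DB lam b r s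

theorem Gd_sq (lam b : ℕ → ℂ) (r : ℕ) (σ v : ℝ) :
    ENNReal.ofReal (‖Gd lam b r (σ + v * Complex.I)‖ ^ 2) =
      ENNReal.ofReal ((2 : ℝ) ^ ((r : ℝ) * (2 * σ - 1))) *
        ENNReal.ofReal (‖DB lam b r (σ + v * Complex.I)‖ ^ 2) := by
  rw [← ENNReal.ofReal_mul (by positivity), Gd, norm_mul, mul_pow]
  congr 2
  have h1 : ‖(2 : ℂ) ^ ((r : ℂ) * ((σ + v * Complex.I) - 1 / 2))‖ =
      (2 : ℝ) ^ ((r : ℝ) * (σ - 1 / 2)) := by
    have h2 := Complex.norm_cpow_eq_rpow_re_of_pos (x := 2) (by norm_num)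
      ((r : ℂ) * ((σ + v * Complex.I) - 1 / 2))
    have h3 : ((r : ℂ) * ((σ + v * Complex.I) - 1 / 2)).re = (r : ℝ) * (σ - 1 / 2) := by
      simp [Complex.mul_re]
    rw [h3] at h2
    exact_mod_cast h2
  rw [h1, ← Real.rpow_natCast, ← Real.rpow_mul (by norm_num)]
  congr 1
  push_cast
  ring

theorem Gd_norm (lam b : ℕ → ℂ) (r : ℕ) (s : ℂ) :
    ‖Gd lam b r s‖ = (2 : ℝ) ^ ((r : ℝ) * (s.re - 1 / 2)) * ‖DB lam b r s‖ := by
  rw [Gd, norm_mul]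
  congr 1
  have h2 := Complex.norm_cpow_eq_rpow_re_of_pos (x := 2) (by norm_num) ((r : ℂ) * (s - 1 / 2))
  have h3 : ((r : ℂ) * (s - 1 / 2)).re = (r : ℝ) * (s.re - 1 / 2) := by
    simp [Complex.mul_re]
  rw [h3] at h2
  exact_mod_cast h2

end Pool.Agent.H47.ZF
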